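import Mathlib
import Pool.Agent.V11268.TTComplex

set_option linter.unusedSectionVars false

open CategoryTheory CategoryTheory.Limits CategoryTheory.MonoidalCategory HomologicalComplex

namespace Pool.Agent.Results.MP_93437d_al.UnitMaps

open V11268.TT DerivedCategory

universe v u w w'

section
variable {C : Type u} [Category.{v} C] [Abelian C] [HasDerivedCategory.{w'} C]

/-- A representation of a morphism `f : K ⟶ L` of `D^b(C)` (for bounded complexes `K`, `L`) as
`f = s⁻¹ ∘ a`, where `a : K ⟶ L'` is a map of complexes, `s : L ⟶ L'` is a quasi-isomorphism and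
`L'` is bounded. -/
structure Rep {K L : CochainComplex C ℤ} (f : Q.obj K ⟶ Q.obj L) where
  /-- the bounded complex `L'` -/
  obj : CochainComplex C ℤ
  bdd : IsBdd obj
  /-- the map `a` -/
  num : K ⟶ obj
  /-- the quasi-isomorphism `s` -/
  den : L ⟶ obj
  qis : QuasiIso den
  fac : f ≫ Q.map den = Q.map num

attribute [instance] Rep.bdd Rep.qis

variable [MonoidalCategory C] [MonoidalPreadditive C]

/-- `f ⊗ g = 0` in `D^b(C)`: for representations `f = s⁻¹ ∘ a` and `g = t⁻¹ ∘ b` by bounded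
complexes, `f ⊗ g = (s ⊗ t)⁻¹ ∘ (a ⊗ b)`, so it vanishes iff `a ⊗ b` vanishes in `D^b(C)`.
(Used as a hypothesis, with *some* representations.) -/
def TensorEqZero {K K' L L' : CochainComplex C ℤ} [IsBdd K] [IsBdd K']
    (f : Q.obj K ⟶ Q.obj L) (g : Q.obj K' ⟶ Q.obj L') : Prop :=
  ∃ (r : Rep f) (s : Rep g), Q.map (tensorHom r.num s.num) = 0

/-- `f ⊗ id_Z = 0` in `D^b(C)`. (Used as a conclusion, with *all* representations of `f`.) -/
def TensorIdEqZero {K L : CochainComplex C ℤ} [IsBdd K] (f : Q.obj K ⟶ Q.obj L)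
    (Z : CochainComplex C ℤ) [IsBdd Z] : Prop :=
  ∀ r : Rep f, Q.map (tensorHom r.num (𝟙 Z)) = 0

end

section
variable {C : Type u} [Category.{v} C] [Abelian C] [HasDerivedCategory.{w'} C]

lemma exists_rep (K L : CochainComplex C ℤ) [hK : IsBdd K] [hL : IsBdd L]
    (f : Q.obj K ⟶ Q.obj L) : Nonempty (Rep f) := by
  obtain ⟨a, b, hab⟩ := hK.out
  obtain ⟨a', b', hab'⟩ := hL.out
  have h1 : K.IsStrictlyLE (max b b') := by
    rw [CochainComplex.isStrictlyLE_iff]
    intro i hi
    exact hab i (Or.inr (lt_of_le_of_lt (le_max_left _ _) hi))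
  have h2 : L.IsStrictlyLE (max b b') := by
    rw [CochainComplex.isStrictlyLE_iff]
    intro i hi
    exact hab' i (Or.inr (lt_of_le_of_lt (le_max_right _ _) hi))
  have h3 : L.IsStrictlyGE a' := by
    rw [CochainComplex.isStrictlyGE_iff]
    intro i hi
    exact hab' i (Or.inl hi)
  obtain ⟨Y', hY1, hY2, g, s, hs, hf⟩ :=
    left_fac_of_isStrictlyLE_of_isStrictlyGE a' (max b b') f
  refine ⟨⟨Y', ⟨a', max b b', ?_⟩, g, s, (isIso_Q_map_iff_quasiIso C s).1 hs, ?_⟩⟩
  · rintro n (hn | hn)
    · exact Y'.isZero_of_isStrictlyGE a' n hn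
    · exact Y'.isZero_of_isStrictlyLE (max b b') n hn
  · rw [hf, Category.assoc, IsIso.inv_hom_id, Category.comp_id]

lemma homologyMap_of_Q {K L : CochainComplex C ℤ} (f : K ⟶ L) :
    (DerivedCategory.homologyFunctor C 0).map (Q.map f) = 0 ↔ homologyMap f 0 = 0 := by
  let eK : (DerivedCategory.homologyFunctor C 0).obj (Q.obj K) ⟶ K.homology 0 :=
    (homologyFunctorFactors C 0).hom.app K
  let eL : (DerivedCategory.homologyFunctor C 0).obj (Q.obj L) ⟶ L.homology 0 :=
    (homologyFunctorFactors C 0).hom.app L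
  have hK : IsIso eK := inferInstanceAs (IsIso ((homologyFunctorFactors C 0).hom.app K))
  have hL : IsIso eL := inferInstanceAs (IsIso ((homologyFunctorFactors C 0).hom.app L))
  have h : (DerivedCategory.homologyFunctor C 0).map (Q.map f) ≫ eL = eK ≫ homologyMap f 0 :=
    homologyFunctorFactors_hom_naturality f 0
  constructor
  · intro h0
    rw [h0, zero_comp] at h
    exact (cancel_epi eK).1 (by rw [← h, comp_zero])
  · intro h0
    rw [h0, comp_zero] at h
    exact (cancel_mono eL).1 (by rw [h, zero_comp])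

lemma rep_homology {K L : CochainComplex C ℤ} (f : Q.obj K ⟶ Q.obj L) (r : Rep f) :
    (DerivedCategory.homologyFunctor C 0).map f = 0 ↔ homologyMap r.num 0 = 0 := by
  have hiso : IsIso (Q.map r.den) := (isIso_Q_map_iff_quasiIso C r.den).2 inferInstance
  rw [← homologyMap_of_Q, ← r.fac, Functor.map_comp]
  constructor
  · intro h
    rw [h, zero_comp]
  · intro h
    exact (cancel_mono ((DerivedCategory.homologyFunctor C 0).map (Q.map r.den))).1 (by rw [h, zero_comp])

lemma not_isZero_sg {P : C} (hP : ¬ IsZero P) : ¬ IsZero (Q.obj (sg P)) := by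
  intro h
  apply hP
  have h1 : homologyMap (𝟙 (sg P)) 0 = 0 := by
    rw [← homologyMap_of_Q]
    have : Q.map (𝟙 (sg P)) = 0 := h.eq_of_src _ _
    rw [this, Functor.map_zero]
  rw [homologyMap_id] at h1
  have h2 : IsZero ((sg P).homology 0) := by
    rw [IsZero.iff_id_eq_zero]
    exact h1
  exact h2.of_iso (singleObjHomologySelfIso (ComplexShape.up ℤ) 0 P).symm

end

/-- **Solution of Q1** (affirmative, with `n = 1`). Let `C` be a finite symmetric tensor category
over `k`. Every morphism of `D^b(C)` between bounded complexes has a representation; and if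
`f : 𝟙 ⟶ X`, `g : 𝟙 ⟶ Y` in `D^b(C)` satisfy `f ⊗ g = 0`, then there is a nonzero object `Z` of
`D^b(C)` with `f ⊗ id_Z = 0` or `g ⊗ id_Z = 0`. -/
theorem result (k : Type w) [Field k] (C : Type u) [Category.{v} C] [Abelian C] [Linear k C]
    [MonoidalCategory C] [MonoidalPreadditive C] [MonoidalLinear k C] [RigidCategory C]
    [SymmetricCategory C] [HasDerivedCategory.{w'} C] (hC : IsFiniteTensorCategory k C) :
    (∀ (K L : CochainComplex C ℤ) [IsBdd K] [IsBdd L] (f : Q.obj K ⟶ Q.obj L),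
      Nonempty (Rep f)) ∧
    (∀ (X Y : CochainComplex C ℤ) [IsBdd X] [IsBdd Y]
      (f : Q.obj (sg (𝟙_ C)) ⟶ Q.obj X) (g : Q.obj (sg (𝟙_ C)) ⟶ Q.obj Y),
      TensorEqZero f g →
      ∃ (Z : CochainComplex C ℤ) (_ : IsBdd Z), ¬ IsZero (Q.obj Z) ∧
        (TensorIdEqZero f Z ∨ TensorIdEqZero g Z)) := by
  refine ⟨fun K L _ _ f => exists_rep K L f, ?_⟩
  intro X Y _ _ f g ⟨r, s, hrs⟩
  have := hC.artinian
  have hsimple : Simple (𝟙_ C) := unit_simple hC.end_unit
  have := hC.enoughProjectives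
  let P : C := Projective.over (𝟙_ C)
  have hP : ¬ IsZero P := by
    intro h
    have h1 : Projective.π (𝟙_ C) = 0 := h.eq_of_src _ _
    apply Simple.not_isZero (𝟙_ C)
    rw [IsZero.iff_id_eq_zero]
    exact (cancel_epi (Projective.π (𝟙_ C))).1 (by rw [h1, zero_comp, zero_comp])
  have key : ∀ (W : CochainComplex C ℤ) (f : Q.obj (sg (𝟙_ C)) ⟶ Q.obj W) (r : Rep f),
      homologyMap r.num 0 = 0 → TensorIdEqZero f (sg P) := by
    intro W f r hr r'
    have h0 := (rep_homology f r').1 ((rep_homology f r).2 hr)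
    obtain ⟨H⟩ := nullHomotopic r'.obj r'.num h0 P
    rw [Q_map_eq_of_homotopy C H, Functor.map_zero]
  refine ⟨sg P, inferInstance, not_isZero_sg hP, ?_⟩
  have h1 : homologyMap (tensorHom r.num s.num) 0 = 0 := by
    rw [← homologyMap_of_Q, hrs, Functor.map_zero]
  rcases detect r.obj s.obj r.num s.num h1 with h | h
  · exact Or.inl (key X f r h)
  · exact Or.inr (key Y g s h)

end Pool.Agent.Results.MP_93437d_al.UnitMaps
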